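import Pool.Agent.H143R3.BT.Stmts

/-!
# Task V1 of project H143-BT: Laplace functional of the Poisson process
(the case of simple functions follows helper143's file BM8)
-/

namespace Pool.Agent.H339R3.BT.V1

open MeasureTheory ProbabilityTheory Set Filter Topology
open scoped ENNReal NNReal
open Pool.Agent.H143R3.BT

universe u

variable {Ω : Type u} [MeasurableSpace Ω] {P : Measure Ω} [IsProbabilityMeasure P]
  {x : ℕ → Ω → ℝ}

/-- `exp (- lam c)` -/
noncomputable def ex (lam : ℝ≥0) (c : ℝ≥0∞) : ℝ≥0∞ :=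
  ENNReal.ofReal (Real.exp (-(lam * c.toReal)))

lemma measurable_count (hx : ∀ i, Measurable (x i)) {A : Set ℝ}
    (hA : MeasurableSet A) : Measurable (count x A) := by
  unfold count
  refine Measurable.tsum fun i => ?_
  exact (measurable_const.indicator hA).comp (hx i)

lemma poisson_pgf (r : ℝ≥0) (c : ℝ≥0) (hc : c ≤ 1) :
    ∫⁻ n : ℕ, (1 - (c : ℝ≥0∞)) ^ n ∂(poissonMeasure r) =
      ENNReal.ofReal (Real.exp (-(r * c))) := by
  have h1 : (1 - (c : ℝ≥0∞)) = ENNReal.ofReal (1 - c) := by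
    rw [ENNReal.ofReal_sub _ (NNReal.coe_nonneg c), ENNReal.ofReal_one,
      ENNReal.ofReal_coe_nnreal]
  have hc' : (0:ℝ) ≤ 1 - c := by
    have : (c:ℝ) ≤ 1 := by exact_mod_cast hc
    linarith
  rw [h1, poissonMeasure, lintegral_sum_measure]
  simp_rw [lintegral_smul_measure, lintegral_dirac, smul_eq_mul]
  have h2 : ∀ n : ℕ, ENNReal.ofReal (Real.exp (-r) * r ^ n / (n.factorial)) *
      ENNReal.ofReal (1 - c) ^ n =
      ENNReal.ofReal (Real.exp (-r) * ((r * (1 - c)) ^ n / n.factorial)) := by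
    intro n
    rw [← ENNReal.ofReal_pow hc', ← ENNReal.ofReal_mul (by positivity)]
    congr 1
    rw [mul_pow]
    ring
  simp_rw [h2]
  have h3 : HasSum (fun n : ℕ => Real.exp (-r) * ((r * (1 - c)) ^ n / n.factorial))
      (Real.exp (-r) * Real.exp (r * (1 - c))) := by
    have := (NormedSpace.expSeries_div_hasSum_exp ((r:ℝ) * (1 - c)))
    rw [← Real.exp_eq_exp_ℝ] at this
    exact this.mul_left _
  rw [← ENNReal.ofReal_tsum_of_nonneg (fun n => by positivity) h3.summable, h3.tsum_eq,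
    ← Real.exp_add]
  congr 2
  ring

lemma antitone_prod (f : ℕ → ℝ≥0∞) : Antitone fun m : ℕ => ∏ i ∈ Finset.range m, (1 - f i) := by
  refine antitone_nat_of_succ_le fun m => ?_
  rw [Finset.prod_range_succ]
  exact mul_le_of_le_one_right' tsub_le_self

/-- Laplace functional for simple functions. -/
lemma ppp_simple {lam : ℝ≥0} (hx : IsPPP P lam x)
    (ψ : SimpleFunc ℝ ℝ≥0) (hψ1 : ∀ z, ψ z ≤ 1) (hψi : ∫⁻ z, (ψ z : ℝ≥0∞) ≠ ∞) :
    ∫⁻ ω, ⨅ m : ℕ, ∏ i ∈ Finset.range m, (1 - (ψ (x i ω) : ℝ≥0∞)) ∂P =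
      ex lam (∫⁻ z, (ψ z : ℝ≥0∞)) := by
  classical
  set S : Finset ℝ≥0 := ψ.range.filter (fun c => c ≠ 0) with hS
  set A : S → Set ℝ := fun c => ψ ⁻¹' {c.1} with hA
  have hAm : ∀ c, MeasurableSet (A c) := fun c => ψ.measurableSet_preimage _
  have hS0 : ∀ c ∈ S, c ≠ 0 := fun c hc => (Finset.mem_filter.mp hc).2
  have hS1 : ∀ c ∈ S, c ≤ 1 := by
    intro c hc
    have h1 := (Finset.mem_filter.mp hc).1
    rw [SimpleFunc.mem_range] at h1
    obtain ⟨z, rfl⟩ := h1
    exact hψ1 z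
  have hint : ∫⁻ z, (ψ z : ℝ≥0∞) = ∑ c ∈ S, (c : ℝ≥0∞) * volume (ψ ⁻¹' {c}) := by
    have h1 : ∫⁻ z, (ψ z : ℝ≥0∞) = ∫⁻ z, (ψ.map ((↑) : ℝ≥0 → ℝ≥0∞)) z := rfl
    rw [h1, SimpleFunc.lintegral_eq_lintegral, SimpleFunc.map_lintegral]
    rw [hS, Finset.sum_filter]
    refine Finset.sum_congr rfl fun c _ => ?_
    split_ifs with h0
    · rfl
    · push Not at h0
      simp [h0]
  have hAv : ∀ c, volume (A c) ≠ ∞ := by
    intro c htop
    have h1 : ((c.1 : ℝ≥0) : ℝ≥0∞) * volume (ψ ⁻¹' {c.1}) ≤ ∫⁻ z, (ψ z : ℝ≥0∞) := by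
      rw [hint]
      exact Finset.single_le_sum (f := fun c : ℝ≥0 => (c : ℝ≥0∞) * volume (ψ ⁻¹' {c}))
        (fun _ _ => zero_le) c.2
    have h2 : volume (ψ ⁻¹' {c.1}) = ∞ := htop
    rw [h2, ENNReal.mul_top (by exact_mod_cast hS0 c.1 c.2)] at h1
    exact hψi (top_le_iff.mp h1)
  have hdisj : Pairwise (Function.onFun Disjoint A) := by
    intro c c' hcc
    rw [Function.onFun, Set.disjoint_left]
    intro z hz hz'
    simp only [hA, mem_preimage, mem_singleton_iff] at hz hz'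
    exact hcc (Subtype.ext (hz.symm.trans hz'))
  have hindep := hx.indep S A hAm hAv hdisj
  -- almost sure finiteness
  have hfin : ∀ᵐ ω ∂P, ∀ c : S, count x (A c) ω ≠ ∞ := by
    rw [ae_all_iff]
    intro c
    have h1 := hx.law (A c) (hAm c) (hAv c)
    have h2 : P.map (count x (A c)) {∞} = 0 := by
      rw [h1, Measure.map_apply (by fun_prop) (measurableSet_singleton _)]
      have : (fun n : ℕ => (n : ℝ≥0∞)) ⁻¹' {∞} = ∅ := by
        ext n; simp
      rw [this]
      simp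
    rw [Measure.map_apply (measurable_count hx.measurable (hAm c)) (measurableSet_singleton _)]
      at h2
    rw [ae_iff]
    convert h2 using 2
    ext ω
    simp
  have hpt : ∀ᵐ ω ∂P, ⨅ m : ℕ, ∏ i ∈ Finset.range m, (1 - (ψ (x i ω) : ℝ≥0∞)) =
      ∏ c : S, (1 - ((c.1 : ℝ≥0) : ℝ≥0∞)) ^ (count x (A c) ω).toReal := by
    filter_upwards [hfin] with ω hω
    have hfs : ∀ c : S, {i | x i ω ∈ A c}.Finite := by
      intro c
      have h1 := ENNReal.finite_const_le_of_tsum_ne_top (hω c) (ε := 1) one_ne_zero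
      refine h1.subset fun i hi => ?_
      simp only [Set.mem_ofPred_eq] at hi ⊢
      rw [indicator_of_mem hi]
    obtain ⟨m0, hm0⟩ : ∃ m, ∀ c : S, ∀ i, x i ω ∈ A c → i < m := by
      have h1 : (⋃ c : S, {i | x i ω ∈ A c}).Finite := Set.finite_iUnion hfs
      obtain ⟨m, hm⟩ := h1.bddAbove
      refine ⟨m + 1, fun c i hi => ?_⟩
      have := hm (mem_iUnion.mpr ⟨c, hi⟩)
      omega
    have key : ∀ m, m0 ≤ m → ∏ i ∈ Finset.range m, (1 - (ψ (x i ω) : ℝ≥0∞)) =
        ∏ c : S, (1 - ((c.1 : ℝ≥0) : ℝ≥0∞)) ^ (count x (A c) ω).toReal := by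
      intro m hmm
      have hm : ∀ c : S, ∀ i, x i ω ∈ A c → i < m := fun c i hi => (hm0 c i hi).trans_le hmm
      have hcount : ∀ c : S, count x (A c) ω =
          (((Finset.range m).filter (fun i => x i ω ∈ A c)).card : ℝ≥0∞) := by
        intro c
        unfold count
        rw [tsum_eq_sum (s := Finset.range m)]
        · rw [Finset.card_filter]
          push_cast
          refine Finset.sum_congr rfl fun i _ => ?_
          by_cases hi : x i ω ∈ A c
          · rw [indicator_of_mem hi, if_pos hi]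
          · rw [indicator_of_notMem hi, if_neg hi]
        · intro i hi
          rw [indicator_of_notMem]
          intro h1
          exact hi (Finset.mem_range.mpr (hm c i h1))
      calc ∏ i ∈ Finset.range m, (1 - (ψ (x i ω) : ℝ≥0∞))
          = ∏ i ∈ Finset.range m, ∏ c : S, (if x i ω ∈ A c then
              (1 - ((c.1 : ℝ≥0) : ℝ≥0∞)) else 1) := by
            refine Finset.prod_congr rfl fun i _ => ?_
            by_cases hi : ψ (x i ω) ∈ S
            · rw [Finset.prod_eq_single (⟨ψ (x i ω), hi⟩ : S)]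
              · rw [if_pos (by simp [hA])]
              · intro c _ hc
                rw [if_neg]
                intro h1
                apply hc
                simp only [hA, mem_preimage, mem_singleton_iff] at h1
                exact Subtype.ext h1.symm
              · intro h1
                exact absurd (Finset.mem_univ _) h1
            · have h0 : ψ (x i ω) = 0 := by
                by_contra hne
                exact hi (Finset.mem_filter.mpr ⟨SimpleFunc.mem_range_self _ _, hne⟩)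
              rw [h0]
              symm
              rw [ENNReal.coe_zero, tsub_zero]
              refine Finset.prod_eq_one fun c _ => ?_
              rw [if_neg]
              intro h1
              simp only [hA, mem_preimage, mem_singleton_iff] at h1
              exact hS0 c.1 c.2 (h1.symm.trans h0)
        _ = ∏ c : S, ∏ i ∈ Finset.range m, (if x i ω ∈ A c then
              (1 - ((c.1 : ℝ≥0) : ℝ≥0∞)) else 1) := Finset.prod_comm
        _ = _ := by
            refine Finset.prod_congr rfl fun c _ => ?_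
            rw [hcount c, ENNReal.toReal_natCast, ENNReal.rpow_natCast, Finset.prod_ite,
              Finset.prod_const, Finset.prod_const_one, mul_one]
    refine le_antisymm ((iInf_le _ m0).trans_eq (key m0 le_rfl)) (le_iInf fun m => ?_)
    rw [← key (max m0 m) (le_max_left _ _)]
    exact antitone_prod (fun i => (ψ (x i ω) : ℝ≥0∞)) (le_max_right m0 m)
  have hφm : ∀ c : S, Measurable (fun t : ℝ≥0∞ => (1 - ((c.1 : ℝ≥0) : ℝ≥0∞)) ^ t.toReal) := by
    intro c
    exact Measurable.pow measurable_const ENNReal.measurable_toReal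
  calc ∫⁻ ω, ⨅ m : ℕ, ∏ i ∈ Finset.range m, (1 - (ψ (x i ω) : ℝ≥0∞)) ∂P
      = ∫⁻ ω, ∏ c : S, (1 - ((c.1 : ℝ≥0) : ℝ≥0∞)) ^ (count x (A c) ω).toReal ∂P :=
        lintegral_congr_ae hpt
    _ = ∏ c : S, ∫⁻ ω, (1 - ((c.1 : ℝ≥0) : ℝ≥0∞)) ^ (count x (A c) ω).toReal ∂P := by
        have h1 := hindep.comp (fun (c : S) t => (1 - ((c.1 : ℝ≥0) : ℝ≥0∞)) ^ (t : ℝ≥0∞).toReal) hφm
        exact lintegral_prod_eq_prod_lintegral_of_indepFun Finset.univ _ h1
          (fun c => (hφm c).comp (measurable_count hx.measurable (hAm c)))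
    _ = ∏ c : S, ENNReal.ofReal (Real.exp (-((lam * (volume (A c)).toNNReal : ℝ≥0) * c.1))) := by
        refine Finset.prod_congr rfl fun c _ => ?_
        rw [← poisson_pgf _ _ (hS1 c.1 c.2),
          ← lintegral_map (hφm c) (measurable_count hx.measurable (hAm c)),
          hx.law (A c) (hAm c) (hAv c), lintegral_map (hφm c) (by fun_prop)]
        simp only [ENNReal.toReal_natCast, ENNReal.rpow_natCast]
    _ = ex lam (∫⁻ z, (ψ z : ℝ≥0∞)) := by
        unfold ex
        rw [← ENNReal.ofReal_prod_of_nonneg (fun _ _ => (Real.exp_pos _).le), ← Real.exp_sum]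
        congr 2
        rw [hint, ENNReal.toReal_sum (fun c hc => ENNReal.mul_ne_top ENNReal.coe_ne_top
          (hAv ⟨c, hc⟩)), Finset.mul_sum, ← Finset.sum_coe_sort S, ← Finset.sum_neg_distrib]
        refine Finset.sum_congr rfl fun c _ => ?_
        rw [ENNReal.toReal_mul]
        simp only [hA, NNReal.coe_mul, ENNReal.coe_toNNReal_eq_toReal, ENNReal.coe_toReal]
        ring

theorem taskV1 : TaskV1.{u} := by
  intro Ω _ P _ lam x hx p hpm hp1 hpi
  -- the approximating simple functions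
  set ψ : ℕ → SimpleFunc ℝ ℝ≥0 := fun n => (SimpleFunc.eapprox p n).map ENNReal.toNNReal with hψ
  have hψe : ∀ n z, ((ψ n z : ℝ≥0) : ℝ≥0∞) = SimpleFunc.eapprox p n z := by
    intro n z
    rw [hψ]
    simp only [SimpleFunc.map_apply]
    exact ENNReal.coe_toNNReal (SimpleFunc.eapprox_lt_top p n z).ne
  have hmono : ∀ z, Monotone fun n => ((ψ n z : ℝ≥0) : ℝ≥0∞) := by
    intro z n m hnm
    simp only [hψe]
    exact SimpleFunc.monotone_eapprox p hnm z
  have hsup : ∀ z, ⨆ n, ((ψ n z : ℝ≥0) : ℝ≥0∞) = p z := by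
    intro z
    simp only [hψe]
    exact SimpleFunc.iSup_eapprox_apply hpm z
  have hle : ∀ n z, ((ψ n z : ℝ≥0) : ℝ≥0∞) ≤ p z := by
    intro n z
    rw [← hsup z]
    exact le_iSup (fun n => ((ψ n z : ℝ≥0) : ℝ≥0∞)) n
  have hψ1 : ∀ n z, ψ n z ≤ 1 := by
    intro n z
    exact_mod_cast (hle n z).trans (hp1 z)
  have hψi : ∀ n, ∫⁻ z, ((ψ n z : ℝ≥0) : ℝ≥0∞) ≠ ∞ := fun n =>
    ne_top_of_le_ne_top hpi (lintegral_mono (hle n))
  have htend : ∀ z, Tendsto (fun n => ((ψ n z : ℝ≥0) : ℝ≥0∞)) atTop (𝓝 (p z)) := by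
    intro z
    rw [← hsup z]
    exact tendsto_atTop_iSup (hmono z)
  -- convergence of the right-hand sides
  have hR : Tendsto (fun n => ex lam (∫⁻ z, ((ψ n z : ℝ≥0) : ℝ≥0∞))) atTop
      (𝓝 (ex lam (∫⁻ z, p z))) := by
    have h1 : Tendsto (fun n => ∫⁻ z, ((ψ n z : ℝ≥0) : ℝ≥0∞)) atTop (𝓝 (∫⁻ z, p z)) := by
      refine lintegral_tendsto_of_tendsto_of_monotone (fun n => ?_) ?_ ?_
      · exact (measurable_coe_nnreal_ennreal.comp (ψ n).measurable).aemeasurable
      · exact Eventually.of_forall fun z => hmono z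
      · exact Eventually.of_forall fun z => htend z
    unfold ex
    have h2 := (ENNReal.tendsto_toReal hpi).comp h1
    have h3 : Tendsto (fun n => -((lam : ℝ) * (∫⁻ z, ((ψ n z : ℝ≥0) : ℝ≥0∞)).toReal)) atTop
        (𝓝 (-((lam : ℝ) * (∫⁻ z, p z).toReal))) := (h2.const_mul _).neg
    exact ENNReal.tendsto_ofReal ((Real.continuous_exp.tendsto _).comp h3)
  -- convergence of the left-hand sides
  have hanti : ∀ ω, Antitone fun n => ⨅ m : ℕ, ∏ i ∈ Finset.range m,
      (1 - ((ψ n (x i ω) : ℝ≥0) : ℝ≥0∞)) := by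
    intro ω n n' hnn
    refine iInf_mono fun m => ?_
    exact Finset.prod_le_prod' fun i _ => tsub_le_tsub_left (hmono _ hnn) _
  have hlim : ∀ ω, Tendsto (fun n => ⨅ m : ℕ, ∏ i ∈ Finset.range m,
      (1 - ((ψ n (x i ω) : ℝ≥0) : ℝ≥0∞))) atTop
      (𝓝 (⨅ m : ℕ, ∏ i ∈ Finset.range m, (1 - p (x i ω)))) := by
    intro ω
    have h1 : ⨅ n, ⨅ m : ℕ, ∏ i ∈ Finset.range m, (1 - ((ψ n (x i ω) : ℝ≥0) : ℝ≥0∞)) =
        ⨅ m : ℕ, ∏ i ∈ Finset.range m, (1 - p (x i ω)) := by
      rw [iInf_comm]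
      refine iInf_congr fun m => ?_
      have h2 : Tendsto (fun n => ∏ i ∈ Finset.range m, (1 - ((ψ n (x i ω) : ℝ≥0) : ℝ≥0∞))) atTop
          (𝓝 (∏ i ∈ Finset.range m, (1 - p (x i ω)))) := by
        refine ENNReal.tendsto_finset_prod_of_ne_top _ (fun i _ => ?_) (fun i _ => ?_)
        · exact ENNReal.Tendsto.sub tendsto_const_nhds (htend _) (Or.inl ENNReal.one_ne_top)
        · exact ne_top_of_le_ne_top ENNReal.one_ne_top tsub_le_self
      have h3 : Antitone (fun n => ∏ i ∈ Finset.range m, (1 - ((ψ n (x i ω) : ℝ≥0) : ℝ≥0∞))) := by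
        intro n n' hnn
        exact Finset.prod_le_prod' fun i _ => tsub_le_tsub_left (hmono _ hnn) _
      exact tendsto_nhds_unique (tendsto_atTop_iInf h3) h2
    rw [← h1]
    exact tendsto_atTop_iInf (hanti ω)
  have hL : Tendsto (fun n => ∫⁻ ω, ⨅ m : ℕ, ∏ i ∈ Finset.range m,
      (1 - ((ψ n (x i ω) : ℝ≥0) : ℝ≥0∞)) ∂P) atTop
      (𝓝 (∫⁻ ω, ⨅ m : ℕ, ∏ i ∈ Finset.range m, (1 - p (x i ω)) ∂P)) := by
    refine lintegral_tendsto_of_tendsto_of_antitone (fun n => ?_) ?_ ?_ ?_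
    · refine (Measurable.iInf fun m => ?_).aemeasurable
      refine Finset.measurable_prod _ fun i _ => ?_
      exact measurable_const.sub
        (measurable_coe_nnreal_ennreal.comp ((ψ n).measurable.comp (hx.measurable i)))
    · exact Eventually.of_forall fun ω => hanti ω
    · refine ne_top_of_le_ne_top ENNReal.one_ne_top ?_
      calc ∫⁻ ω, ⨅ m : ℕ, ∏ i ∈ Finset.range m, (1 - ((ψ 0 (x i ω) : ℝ≥0) : ℝ≥0∞)) ∂P
          ≤ ∫⁻ _, 1 ∂P := lintegral_mono fun ω => by
            refine (iInf_le _ 0).trans ?_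
            simp
        _ = 1 := by simp
    · exact Eventually.of_forall fun ω => hlim ω
  have hE : (fun n => ∫⁻ ω, ⨅ m : ℕ, ∏ i ∈ Finset.range m,
      (1 - ((ψ n (x i ω) : ℝ≥0) : ℝ≥0∞)) ∂P) =
      fun n => ex lam (∫⁻ z, ((ψ n z : ℝ≥0) : ℝ≥0∞)) := by
    funext n
    exact ppp_simple hx (ψ n) (hψ1 n) (hψi n)
  rw [hE] at hL
  exact tendsto_nhds_unique hL hR

end Pool.Agent.H339R3.BT.V1
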